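import Pool.Agent.H68.QT.Targets
import Pool.Agent.H46.QT.TWF

/-!
# The value of a tower depends only on short strings
-/

set_option autoImplicit false

namespace Pool.Agent.H59.QT

open Pool.Agent.H68.QT Pool.Agent.H68.QC Pool.Agent.H70.OQ Pool.Agent.H70.RK Pool.Agent.H6.NB Finset

/-- the value of a tower depends only on short strings -/
theorem tval_loc (m : ℕ) (T : ℝ) : ∀ (j : ℕ) (M : Tow j), TSm m T j M →
    ∀ (b : Bool) (O O' : List Bool → Bool), (∀ w, w.length ≤ m → O w = O' w) →
    TVal m j M O b → TVal m j M O' b
  | 0, A, hM, b, O, O', hO, h => by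
    have h1 : QAlg.prob A O = QAlg.prob A O' :=
      Pool.Agent.H46.QT.prob_loc A m O O' hM.1 hO
    simp only [TVal] at h ⊢
    rwa [← h1]
  | j + 1, (A, sub), hM, b, O, O', hO, h => by
    classical
    obtain ⟨hA, -, hs⟩ := hM
    intro g' h1 h2 h3
    let g : List Bool → Bool := fun w => match w with
      | false :: w => O w
      | true :: w => if w.length ≤ m then g' (true :: w) else
          decide (∃ v : List Bool, v.length ≤ m ∧ TVal m j (sub w v) O true)
      | [] => g' []
    have a1 : ∀ w, g (false :: w) = O w := fun w => rfl
    have a2 : ∀ w, (∃ v : List Bool, v.length ≤ m ∧ TVal m j (sub w v) O true) →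
        g (true :: w) = true := by
      intro w hw
      by_cases hwm : w.length ≤ m
      · have e1 : g (true :: w) = g' (true :: w) := if_pos hwm
        rw [e1]
        obtain ⟨v, hv, hv1⟩ := hw
        exact h2 w ⟨v, hv, tval_loc m T j (sub w v) (hs w v hwm hv) true O O' hO hv1⟩
      · have e1 : g (true :: w) =
            decide (∃ v : List Bool, v.length ≤ m ∧ TVal m j (sub w v) O true) := if_neg hwm
        rw [e1]
        exact decide_eq_true hw
    have a3 : ∀ w, (∀ v : List Bool, v.length ≤ m → TVal m j (sub w v) O false) →
        g (true :: w) = false := by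
      intro w hw
      by_cases hwm : w.length ≤ m
      · have e1 : g (true :: w) = g' (true :: w) := if_pos hwm
        rw [e1]
        exact h3 w fun v hv => tval_loc m T j (sub w v) (hs w v hwm hv) false O O' hO (hw v hv)
      · have e1 : g (true :: w) =
            decide (∃ v : List Bool, v.length ≤ m ∧ TVal m j (sub w v) O true) := if_neg hwm
        rw [e1]
        refine decide_eq_false ?_
        rintro ⟨v, hv, hv1⟩
        exact Pool.Agent.H46.QT.tval_excl m j (sub w v) O hv1 (hw v hv)
    have a4 : A.prob g = A.prob g' := by
      refine Pool.Agent.H46.QT.prob_loc A (m + 1) g g' hA ?_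
      intro w hw
      rcases w with _ | ⟨x, w⟩
      · rfl
      · have hw' : w.length ≤ m := by
          rw [List.length_cons] at hw
          omega
        cases x
        · rw [a1, h1, hO w hw']
        · exact if_pos hw'
    have a5 := h g a1 a2 a3
    rwa [a4] at a5

theorem pf_TLC : T_TLC := fun m j T M hM =>
  ⟨fun O O' hO h => tval_loc m T j M hM true O O' hO h,
    fun O O' hO h => tval_loc m T j M hM false O O' hO h⟩

end Pool.Agent.H59.QT
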